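import Pool.Agent.KS6_32.MD.Card

set_option autoImplicit false

/-!
# The oracles for which Baire space is categorical: continuum many minimal ones

The definitions `Pres`, `IsName`, `CompMap`, `Cat`, `Red` are those of the module
`Helper583.TCStmt`: computable presentations of Baire space, fast Cauchy names, maps
computable relative to an oracle, `a`-categoricity, Turing reducibility.
-/

namespace Pool.Agent.Results.MP_7511ee_lc.MinimalOracles

open Pool.Agent.Helper583.TC Pool.Agent.KS6_32.MD
open scoped Cardinal

/-- The bit sequence `y` is the only member of a (lightface) co-analytic class: for some primitive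
recursive relation `W` between finite words, `y` is the only sequence `z` such that every
`x : ℕ → ℕ` has a number `n` with `W (z restricted to n) (x restricted to n)`. -/
def CoanalyticSingleton (y : ℕ → Bool) : Prop :=
  ∃ W : List Bool × List ℕ → Bool, Primrec W ∧
    ∀ z : ℕ → Bool, (∀ x : ℕ → ℕ, ∃ n, W (pre z n, pre x n) = true) ↔ z = y

/-- `z` is computable from some bit sequence that is a co-analytic singleton. -/
def Low (z : ℕ → ℕ) : Prop :=
  ∃ y : ℕ → Bool, CoanalyticSingleton y ∧ Red z (fun n => (y n).toNat)

/-- `b` is minimal among the oracles for which Baire space is categorical: Baire space is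
`b`-categorical, and every `c` computable from `b` for which Baire space is `c`-categorical
computes `b`. -/
def MinimalCat (b : ℕ → ℕ) : Prop :=
  Cat b ∧ ∀ c : ℕ → ℕ, Cat c → Red c b → Red b c

/-- Everything computable from both `a` and `b` is computable from a co-analytic singleton. -/
def ExactPair (a b : ℕ → ℕ) : Prop := ∀ z : ℕ → ℕ, Red z a → Red z b → Low z

/-- **Main theorem.**
1. Baire space is `a`-categorical iff `a` computes all co-analytic singletons.
2. No such `a` is computable from one co-analytic singleton; the functions computable from every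
such `a` are exactly the functions computable from one co-analytic singleton.
3. For every set `A` of fewer than continuum many oracles there is a set `B` of continuum many
minimal categorical oracles, any two of which form an exact pair, and each of which forms an exact
pair with each member of `A`. Moreover each `b ∈ B` is minimal over the co-analytic singletons:
every `z` computable from `b` is computable from a co-analytic singleton, or together with a
suitable co-analytic singleton computes `b`.
4. If `A` is a set of oracles for which Baire space is categorical, and each such oracle computes a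
member of `A`, then `A` has the cardinality of the continuum.
5. There is no least oracle for which Baire space is categorical: Baire space has no degree of
topological categoricity. -/
theorem result :
    (∀ a : ℕ → ℕ, Cat a ↔
      ∀ y : ℕ → Bool, CoanalyticSingleton y → Red (fun n => (y n).toNat) a) ∧
    ((∀ a : ℕ → ℕ, Cat a → ¬ Low a) ∧
      ∀ z : ℕ → ℕ, Low z ↔ ∀ b : ℕ → ℕ, Cat b → Red z b) ∧
    (∀ A : Set (ℕ → ℕ), #A < 𝔠 → ∃ B : Set (ℕ → ℕ), #B = 𝔠 ∧
      (∀ b ∈ B, MinimalCat b ∧ ∀ z : ℕ → ℕ, Red z b → Low z ∨
        ∃ w : ℕ → Bool, CoanalyticSingleton w ∧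
          ∀ e : ℕ → ℕ, Red z e → Red (fun n => (w n).toNat) e → Red b e) ∧
      (∀ a ∈ A, ∀ b ∈ B, ExactPair a b) ∧
      ∀ b ∈ B, ∀ b' ∈ B, b ≠ b' → ExactPair b b') ∧
    (∀ A : Set (ℕ → ℕ), (∀ a ∈ A, Cat a) → (∀ b : ℕ → ℕ, Cat b → ∃ a ∈ A, Red a b) → #A = 𝔠) ∧
    ¬ ∃ a : ℕ → ℕ, Cat a ∧ ∀ b : ℕ → ℕ, Cat b → Red a b := by
  refine ⟨fun a => cat_iff, ⟨fun a ha => Pool.Agent.Y375.TD.not_low ha,
    fun z => Pool.Agent.Y375.TD.low_iff z⟩, ?_, ?_, no_degree⟩
  · intro A hA
    obtain ⟨B, h1, h2, h3, h4⟩ := main A hA
    exact ⟨B, h1, fun b hb => ⟨⟨(h2 b hb).1, fun c hc hcb => (h2 b hb).min hc hcb⟩, (h2 b hb).2⟩,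
      h3, h4⟩
  · intro A h1 h2
    refine le_antisymm (card_le A) ?_
    by_contra hlt
    rw [not_le] at hlt
    obtain ⟨B, h3, h4, h5, -⟩ := main A hlt
    have hne : B.Nonempty := by
      rw [Set.nonempty_iff_ne_empty]
      rintro rfl
      rw [Cardinal.mk_eq_zero] at h3
      exact absurd h3.symm Cardinal.continuum_ne_zero
    obtain ⟨b, hb⟩ := hne
    obtain ⟨a, ha, hab⟩ := h2 b (h4 b hb).1
    exact Pool.Agent.Y375.TD.not_low (h1 a ha)
      (h5 a ha b hb a (Nat.RecursiveIn.oracle _ rfl) hab)

end Pool.Agent.Results.MP_7511ee_lc.MinimalOracles
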